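import Pool.Agent.ZES.StmtsZ

/-!
ZES, row ZET: the zero estimate for theta functions of a Siegel matrix.
-/

namespace Pool.Agent.ZES.H80

open Pool.Agent.THS Pool.Agent.ZES
open scoped BigOperators InnerProductSpace

theorem inlat_iff {g : ℕ} (τ : Matrix (Fin g) (Fin g) ℂ) (w : Fin g → ℂ) :
    InLat τ w ↔ ∃ p q : Fin g → ℤ, w = pr τ p q := by
  constructor
  · rintro ⟨p, q, h⟩
    exact ⟨p, q, funext h⟩
  · rintro ⟨p, q, h⟩
    exact ⟨p, q, fun i => by rw [h]; rfl⟩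

theorem inlat_zero {g : ℕ} (τ : Matrix (Fin g) (Fin g) ℂ) : InLat τ (0 : Fin g → ℂ) :=
  ⟨0, 0, fun i => by simp⟩

theorem inlat_add {g : ℕ} (τ : Matrix (Fin g) (Fin g) ℂ) {a b : Fin g → ℂ} (ha : InLat τ a)
    (hb : InLat τ b) : InLat τ (a + b) := by
  obtain ⟨p, q, h⟩ := ha
  obtain ⟨p', q', h'⟩ := hb
  refine ⟨p + p', q + q', fun i => ?_⟩
  rw [Pi.add_apply, h i, h' i]
  simp only [Pi.add_apply, Int.cast_add, mul_add, Finset.sum_add_distrib]
  ring

theorem inlat_neg {g : ℕ} (τ : Matrix (Fin g) (Fin g) ℂ) {a : Fin g → ℂ} (ha : InLat τ a) :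
    InLat τ (-a) := by
  obtain ⟨p, q, h⟩ := ha
  refine ⟨-p, -q, fun i => ?_⟩
  rw [Pi.neg_apply, h i]
  simp only [Pi.neg_apply, Int.cast_neg, mul_neg, Finset.sum_neg_distrib]
  ring

theorem van_shift {g : ℕ} (τ : Matrix (Fin g) (Fin g) ℂ) (n : ℕ) (F : (Fin g → ℂ) → ℂ)
    (hF : F ∈ RR τ n) (x w : Fin g → ℂ) (hw : InLat τ w) (hx : F x = 0) : F (x + w) = 0 := by
  obtain ⟨p, q, rfl⟩ := (inlat_iff τ w).1 hw
  have := hF.2 x p q
  rw [this, hx, mul_zero]

theorem real_smul_pi {g : ℕ} (r : ℝ) (w : Fin g → ℂ) : ((r : ℂ) • w) = r • w := by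
  ext i
  simp [Complex.real_smul]

theorem zet (hG : GauStmt) (hT : TrfStmt) (hA : AzeStmt) : ZetStmt := by
  intro g e he h2
  obtain ⟨B, hB⟩ := hA g (2 * e) (by omega)
  refine ⟨B, ?_⟩
  intro τ hτ z F hF hFz hF0
  obtain ⟨Λ, L, χ, β, hLAT, hβ, hL, hEq⟩ := hG g τ hτ
  obtain ⟨hT1, hT2, hT3⟩ := hT g τ hτ Λ L χ β hβ hEq
  let Γ : AddSubgroup (EuclideanSpace ℂ (Fin g)) :=
    { carrier := {v | ∃ j : ℤ, InLat τ (Λ.symm v - j • z)}
      add_mem' := by
        rintro a b ⟨i, hi⟩ ⟨j, hj⟩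
        refine ⟨i + j, ?_⟩
        have : Λ.symm (a + b) - (i + j) • z = (Λ.symm a - i • z) + (Λ.symm b - j • z) := by
          rw [map_add, add_smul]
          abel
        rw [this]
        exact inlat_add τ hi hj
      zero_mem' := by
        refine ⟨0, ?_⟩
        rw [map_zero, zero_smul, sub_zero]
        exact inlat_zero τ
      neg_mem' := by
        rintro a ⟨i, hi⟩
        refine ⟨-i, ?_⟩
        have : Λ.symm (-a) - (-i) • z = -(Λ.symm a - i • z) := by
          rw [map_neg, neg_smul]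
          abel
        rw [this]
        exact inlat_neg τ hi }
  have hΓ : ∀ v, v ∈ Γ ↔ ∃ j : ℤ, InLat τ (Λ.symm v - j • z) := fun v => Iff.rfl
  have hrank : Module.finrank ℂ (EuclideanSpace ℂ (Fin g)) = g := by simp
  have hLΓ : L ≤ Γ := by
    intro v hv
    refine (hΓ v).2 ⟨0, ?_⟩
    rw [zero_smul, sub_zero]
    exact (hL v).1 hv
  have hvan : ∀ x ∈ Γ, (fun v => F (Λ.symm v) * Complex.exp (((2 * e : ℕ) : ℂ) * β (Λ.symm v))) x
      = 0 := by
    intro x hx
    obtain ⟨j, hj⟩ := (hΓ x).1 hx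
    have h1 : Λ.symm x = j • z + (Λ.symm x - j • z) := by abel
    have h3 : F (Λ.symm x) = 0 := by
      rw [h1]
      exact van_shift τ (2 * e) F hF _ _ hj (hFz j)
    show F (Λ.symm x) * _ = 0
    rw [h3, zero_mul]
  have hne : ∃ x, (fun v => F (Λ.symm v) * Complex.exp (((2 * e : ℕ) : ℂ) * β (Λ.symm v))) x
      ≠ 0 := by
    obtain ⟨x, hx⟩ := hF0
    refine ⟨Λ x, ?_⟩
    show F (Λ.symm (Λ x)) * _ ≠ 0
    rw [ContinuousLinearEquiv.symm_apply_apply]
    exact mul_ne_zero hx (Complex.exp_ne_zero _)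
  obtain ⟨W', hW1, hW2, hW3, k, hk1, hkB, hk⟩ := hB (EuclideanSpace ℂ (Fin g)) L χ hrank hLAT
    (hT1 e he h2) (hT2 (2 * e) (by simp) (by omega)) (hT2 2 (by decide) le_rfl) hT3 Γ hLΓ _
    ((hEq (2 * e) F).1 hF) hvan hne
  have hmem : ∀ w : Fin g → ℂ,
      w ∈ W'.comap (Λ.toLinearEquiv : (Fin g → ℂ) →ₗ[ℂ] EuclideanSpace ℂ (Fin g)) ↔ Λ w ∈ W' :=
    fun w => Iff.rfl
  refine ⟨W'.comap (Λ.toLinearEquiv : (Fin g → ℂ) →ₗ[ℂ] EuclideanSpace ℂ (Fin g)), ?_, ?_, ?_,
    k, hk1, hkB, ?_⟩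
  · intro htop
    apply hW1
    rw [eq_top_iff]
    intro v _
    have : Λ.symm v ∈ W'.comap (Λ.toLinearEquiv : (Fin g → ℂ) →ₗ[ℂ] EuclideanSpace ℂ (Fin g)) := by
      rw [htop]
      trivial
    rw [hmem, ContinuousLinearEquiv.apply_symm_apply] at this
    exact this
  · intro w hw
    have h1 := hW2 (Λ w) ((hmem w).1 hw)
    have h2' : ∀ v ∈ Submodule.span ℝ {u : EuclideanSpace ℂ (Fin g) | u ∈ L ∧ u ∈ W'},
        Λ.symm v ∈ Submodule.span ℝ {u : Fin g → ℂ |
          u ∈ W'.comap (Λ.toLinearEquiv : (Fin g → ℂ) →ₗ[ℂ] EuclideanSpace ℂ (Fin g)) ∧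
            InLat τ u} := by
      intro v hv
      induction hv using Submodule.span_induction with
      | mem x hx =>
        apply Submodule.subset_span
        refine ⟨?_, (hL x).1 hx.1⟩
        rw [hmem, ContinuousLinearEquiv.apply_symm_apply]
        exact hx.2
      | zero => rw [map_zero]; exact Submodule.zero_mem _
      | add x y _ _ hx hy => rw [map_add]; exact Submodule.add_mem _ hx hy
      | smul r x _ hx =>
        have h5 : Λ.symm (r • x) = r • Λ.symm x := by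
          rw [← Complex.coe_smul, map_smul, real_smul_pi]
        rw [h5]
        exact Submodule.smul_mem _ _ hx
    have h3 := h2' _ h1
    rw [ContinuousLinearEquiv.symm_apply_apply] at h3
    exact h3
  · obtain ⟨M, hM1, hMB, u, hu, hMu⟩ := hW3 (Λ z) ((hΓ _).2 ⟨1, by
      rw [ContinuousLinearEquiv.symm_apply_apply, one_smul, sub_self]
      exact inlat_zero τ⟩)
    refine ⟨M, hM1, hMB, Λ.symm u, ?_, ?_⟩
    · rw [hmem, ContinuousLinearEquiv.apply_symm_apply]
      exact hu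
    · have := (hL _).1 hMu
      rw [map_sub, map_nsmul, ContinuousLinearEquiv.symm_apply_apply] at this
      exact this
  · intro v hv
    rw [hmem]
    refine hk (Λ v) ?_
    intro f' hf' hf'0
    have hfun : (fun y => (fun x => f' (Λ x) * Complex.exp (-((k : ℂ) * β x))) (Λ.symm y)
        * Complex.exp ((k : ℂ) * β (Λ.symm y))) = f' := by
      funext y
      show f' (Λ (Λ.symm y)) * Complex.exp (-((k : ℂ) * β (Λ.symm y)))
        * Complex.exp ((k : ℂ) * β (Λ.symm y)) = f' y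
      rw [ContinuousLinearEquiv.apply_symm_apply, mul_assoc, ← Complex.exp_add]
      simp
    have hfR : (fun x => f' (Λ x) * Complex.exp (-((k : ℂ) * β x))) ∈ RR τ k := by
      rw [hEq k, hfun]
      exact hf'
    generalize hfd : (fun x => f' (Λ x) * Complex.exp (-((k : ℂ) * β x))) = f at hfun hfR
    have hfz : ∀ (j : ℤ), ∀ w ∈ W'.comap
        (Λ.toLinearEquiv : (Fin g → ℂ) →ₗ[ℂ] EuclideanSpace ℂ (Fin g)), f (j • z + w) = 0 := by
      intro j w hw
      rw [← hfd]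
      show f' (Λ (j • z + w)) * _ = 0
      rw [map_add, hf'0 (Λ (j • z)) ((hΓ _).2 ⟨j, by
        rw [ContinuousLinearEquiv.symm_apply_apply, sub_self]
        exact inlat_zero τ⟩) (Λ w) ((hmem w).1 hw), zero_mul]
    have hd0 := hv f hfR hfz
    have hf00 : f 0 = 0 := by
      have := hfz 0 0 (Submodule.zero_mem _)
      rwa [zero_smul, add_zero] at this
    have h1 : HasFDerivAt f (fderiv ℂ f 0) (Λ.symm (0 : EuclideanSpace ℂ (Fin g))) := by
      rw [map_zero]
      exact (hfR.1 0).hasFDerivAt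
    have h3 := h1.comp (0 : EuclideanSpace ℂ (Fin g)) (Λ.symm.hasFDerivAt)
    have hE : Differentiable ℂ
        (fun y : EuclideanSpace ℂ (Fin g) => Complex.exp ((k : ℂ) * β (Λ.symm y))) :=
      ((hβ.comp Λ.symm.differentiable).const_mul _).cexp
    have h4 := (hE 0).hasFDerivAt
    have h5 := h3.mul h4
    have h8 : fderiv ℂ f' 0 = fderiv ℂ ((f ∘ fun y => Λ.symm y) * fun y =>
        Complex.exp ((k : ℂ) * β (Λ.symm y))) (0 : EuclideanSpace ℂ (Fin g)) := by
      rw [← hfun]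
      rfl
    have h9 := h5.fderiv
    have h7 : (fderiv ℂ f 0) (Λ.symm (Λ v)) = 0 := by
      rw [ContinuousLinearEquiv.symm_apply_apply]
      exact hd0
    have h10 := congrArg (fun T => T (Λ v)) h9
    rw [h8]
    refine Eq.trans h10 ?_
    simp [hf00, hd0]

end Pool.Agent.ZES.H80
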